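import Pool.Agent.helper7.EP.SpecH
import Pool.Agent.helper12.PE.QDelta

set_option autoImplicit false

open Finset PowerSeries Filter Topology
open scoped Real

namespace Pool.Agent.EP

open Pool.Agent.helper12.PE (tay tay_coeff tay_congr tay_mul tay_one tay_euler
  map_pentagonalSeries)

open scoped PowerSeries.WithPiTopology in
private lemma EVE_PPZ : PPZ * pentagonalSeries ℤ = 1 := by
  have h1 := Nat.Partition.hasProd_powerSeriesMk_card_restricted ℤ (fun _ => True)
  have h2 := PowerSeries.WithPiTopology.hasProd_one_sub_X_pow ℤ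
  have h3 : (PowerSeries.mk fun n ↦ ((Nat.Partition.restricted n (fun _ => True)).card : ℤ))
      = PPZ := by
    unfold PPZ
    ext n
    simp [Nat.Partition.restricted, Finset.card_univ]
  rw [h3] at h1
  have h4 := h1.mul h2
  have h5 : (fun i : ℕ => (if (fun _ : ℕ => True) (i + 1) then ∑' j : ℕ, (X : ℤ⟦X⟧) ^ ((i + 1) * j) else 1) *
      (1 - X ^ (i + 1))) = fun _ => 1 := by
    funext i
    simp only [if_true]
    simp_rw [pow_mul]
    exact PowerSeries.WithPiTopology.tsum_pow_mul_one_sub_of_constantCoeff_eq_zero (by simp)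
  have h6 : HasProd (fun _ : ℕ => (1 : ℤ⟦X⟧)) (PPZ * pentagonalSeries ℤ) := by
    rw [← h5]; exact h4
  exact h6.unique hasProd_one

private lemma EVE_ne_zero {q : ℂ} (hq : ‖q‖ < 1) : (∏' n : ℕ, (1 - q ^ (n + 1))) ≠ 0 := by
  refine tprod_one_add_ne_zero_of_summable (f := fun n : ℕ ↦ -q ^ (n + 1)) ?_ ?_
  · intro i h
    have h1 : q ^ (i + 1) = 1 := by
      have : (1 : ℂ) + -q ^ (i + 1) = 0 := h
      linear_combination -this
    have h2 : ‖q‖ ^ (i + 1) = 1 := by
      rw [← norm_pow, h1, norm_one]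
    have h3 : ‖q‖ ^ (i + 1) < 1 := pow_lt_one₀ (norm_nonneg _) hq (by omega)
    exact absurd h2 h3.ne
  · simpa using (summable_nat_add_iff 1).mpr (summable_geometric_of_lt_one (norm_nonneg _) hq)

private lemma EVE_taylor (f : ℂ → ℂ) (φ : ℤ⟦X⟧)
    (hf : DifferentiableOn ℂ f (Metric.ball 0 1))
    (ht : tay f = PowerSeries.map (Int.castRingHom ℂ) φ) (q : ℂ) (hq : ‖q‖ < 1) :
    Evq φ q (f q) := by
  have hqb : q ∈ Metric.ball (0 : ℂ) 1 := by simpa using hq
  have h1 := Complex.hasSum_taylorSeries_on_ball hf hqb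
  unfold Evq
  have h2 : (fun n : ℕ => (((PowerSeries.coeff n φ : ℤ) : ℂ)) * q ^ n) =
      fun n : ℕ => ((n.factorial : ℂ))⁻¹ • (q - 0) ^ n • iteratedDeriv n f 0 := by
    funext n
    have h3 : PowerSeries.coeff n (tay f) = ((PowerSeries.coeff n φ : ℤ) : ℂ) := by
      rw [ht, PowerSeries.coeff_map]
      rfl
    rw [tay_coeff] at h3
    rw [← h3, sub_zero, smul_eq_mul, smul_eq_mul]
    ring
  rw [h2]
  exact h1

theorem EVE : EVE_stmt := by
  intro q hq
  have hU : Metric.ball (0 : ℂ) 1 ∈ 𝓝 (0 : ℂ) := Metric.ball_mem_nhds 0 one_pos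
  have hd := ModularForm.differentiableOn_tprod_one_sub_pow
  have hne : ∀ z ∈ Metric.ball (0 : ℂ) 1, (∏' n : ℕ, (1 - z ^ (n + 1))) ≠ 0 := by
    intro z hz
    exact EVE_ne_zero (by simpa using hz)
  have hdi : DifferentiableOn ℂ (fun z : ℂ => (∏' n : ℕ, (1 - z ^ (n + 1)))⁻¹)
      (Metric.ball 0 1) := hd.inv hne
  have ha := hd.analyticAt hU
  have hai := hdi.analyticAt hU
  have ht := tay_euler
  have hmap : PowerSeries.map (Int.castRingHom ℂ) (pentagonalSeries ℤ) = pentagonalSeries ℂ :=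
    map_pentagonalSeries _
  refine ⟨?_, EVE_ne_zero hq, ?_⟩
  · exact EVE_taylor _ (pentagonalSeries ℤ) hd (by rw [ht, hmap]) q hq
  · refine EVE_taylor (fun z : ℂ => (∏' n : ℕ, (1 - z ^ (n + 1)))⁻¹) PPZ hdi ?_ q hq
    have h1 : tay (fun z : ℂ => (∏' n : ℕ, (1 - z ^ (n + 1)))⁻¹) * pentagonalSeries ℂ = 1 := by
      rw [← ht, ← tay_mul hai ha, ← tay_one]
      apply tay_congr
      filter_upwards [hU] with z hz
      rw [Pi.mul_apply, Pi.one_apply]
      exact inv_mul_cancel₀ (hne z hz)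
    have h2 : PowerSeries.map (Int.castRingHom ℂ) PPZ * pentagonalSeries ℂ = 1 := by
      rw [← hmap, ← map_mul, EVE_PPZ, map_one]
    calc tay (fun z : ℂ => (∏' n : ℕ, (1 - z ^ (n + 1)))⁻¹)
        = tay (fun z : ℂ => (∏' n : ℕ, (1 - z ^ (n + 1)))⁻¹) *
          (PowerSeries.map (Int.castRingHom ℂ) PPZ * pentagonalSeries ℂ) := by rw [h2, mul_one]
      _ = (tay (fun z : ℂ => (∏' n : ℕ, (1 - z ^ (n + 1)))⁻¹) * pentagonalSeries ℂ) *
          PowerSeries.map (Int.castRingHom ℂ) PPZ := by ring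
      _ = _ := by rw [h1, one_mul]

end Pool.Agent.EP
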