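import Pool.Agent.helper7.EP.SpecH

set_option autoImplicit false

open Finset PowerSeries
open scoped Real

namespace Pool.Agent.EP

open Pool.Agent.helper81 (EE PP PP_mul_EE EE_cube_cg Cg)

private lemma PA_tri_ge (s : ℕ) : s ≤ tri s := by
  unfold tri
  rw [Nat.le_div_iff_mul_le (by norm_num)]
  rcases Nat.eq_zero_or_pos s with h | h
  · rw [h]
  · nlinarith

private lemma PA_coeff_expand (A m : ℕ) (hA : A ≠ 0) :
    PowerSeries.coeff m (PowerSeries.expand A hA PP) = if A ∣ m then pp (m / A) else 0 := by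
  by_cases h : A ∣ m
  · rw [if_pos h]
    obtain ⟨k, rfl⟩ := h
    rw [coeff_expand_mul, Nat.mul_div_cancel_left _ (Nat.pos_of_ne_zero hA)]
    unfold PP pp
    rw [PowerSeries.coeff_mk]
  · rw [if_neg h, coeff_expand_of_not_dvd _ _ _ h]

theorem PA : PA_stmt := by
  intro a n
  have hA : (2 : ℕ) ^ a ≠ 0 := pow_ne_zero a (by norm_num)
  have h1 := (Cg.refl (2 * n + 1) (PP ^ (2 ^ a))).mul (EE_cube_cg n)
  have h2 := h1.coeff_eq (n := n) (by omega)
  rw [h2, Finset.mul_sum, map_sum]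
  have h3 : ∀ s : ℕ, PowerSeries.coeff n (PP ^ (2 ^ a) * (X : (ZMod 2)⟦X⟧) ^ (s * (s + 1) / 2)) =
      if tri s ≤ n ∧ 2 ^ a ∣ n - tri s then pp ((n - tri s) / 2 ^ a) else 0 := by
    intro s
    rw [PowerSeries.coeff_mul_X_pow']
    have h4 : s * (s + 1) / 2 = tri s := rfl
    rw [h4]
    by_cases h5 : tri s ≤ n
    · rw [if_pos h5, helper12.PE.pow_eq_expand, PA_coeff_expand]
      by_cases h6 : 2 ^ a ∣ n - tri s
      · rw [if_pos h6, if_pos ⟨h5, h6⟩]
      · rw [if_neg h6, if_neg (fun h => h6 h.2)]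
    · rw [if_neg h5, if_neg (fun h => h5 h.1)]
  rw [Finset.sum_congr rfl (fun s _ => h3 s), ← Finset.sum_filter]
  apply Finset.sum_congr _ (fun _ _ => rfl)
  ext s
  rw [rs, Finset.mem_filter, Finset.mem_filter, Finset.mem_range, Finset.mem_range]
  constructor
  · rintro ⟨_, h5, h6⟩
    have := PA_tri_ge s
    exact ⟨by omega, h5, h6⟩
  · rintro ⟨h4, h5, h6⟩
    exact ⟨by omega, h5, h6⟩

end Pool.Agent.EP
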