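import Pool.Agent.helper7.EP.SpecB

/-!
# Project ep: (MP_ebc808_nt): CNB, the main inequality of part B2
-/

set_option autoImplicit false

open Finset PowerSeries

noncomputable section

namespace Pool.Agent.EP

theorem CNB_pairs (S : Finset ℕ) (X : ℕ) (P : ℕ → ℕ → Prop) :
    ∑ k ∈ S, Set.ncard {n : ℕ | n ≤ X ∧ P k n} =
      Set.ncard {x : ℕ × ℕ | x.1 ∈ S ∧ x.2 ≤ X ∧ P x.1 x.2} := by
  classical
  have h1 : ∀ k, {n : ℕ | n ≤ X ∧ P k n} = ↑((range (X + 1)).filter (fun n => P k n)) := by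
    intro k
    ext n
    simp [Nat.lt_succ_iff]
  have h2 : {x : ℕ × ℕ | x.1 ∈ S ∧ x.2 ≤ X ∧ P x.1 x.2} =
      ↑((S ×ˢ range (X + 1)).filter (fun x => P x.1 x.2)) := by
    ext ⟨k, n⟩
    simp [Nat.lt_succ_iff, and_assoc]
  rw [h2, Set.ncard_coe_finset]
  simp_rw [h1, Set.ncard_coe_finset]
  rw [Finset.card_filter, Finset.sum_product]
  refine Finset.sum_congr rfl fun k _ => ?_
  rw [Finset.card_filter]

theorem CNB_e (z : ZMod 2) : ∃ e : ℕ, e < 2 ∧ ((e : ℕ) : ZMod 2) ≠ z := by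
  by_cases h : z = 0
  · exact ⟨1, by norm_num, by rw [h]; decide⟩
  · exact ⟨0, by norm_num, by rw [Nat.cast_zero]; exact fun h2 => h h2.symm⟩

theorem CNB (hEVB : EVB_stmt) (hXA1 : XA1_stmt) (hXB1 : XB1_stmt) (hXC1 : XC1_stmt)
    (hLTY : LTY_stmt) (hRTY : RTY_stmt) : CNB_stmt := by
  intro a y X D N ha hy hD hN
  have hL := hLTY a X D (by
    intro m hm hmX
    refine hD m hm (hmX.trans ?_)
    have h1 : 1 ≤ 4 ^ a := Nat.one_le_pow _ _ (by norm_num)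
    nlinarith [Nat.mul_le_mul_right X h1])
  have hR := hRTY a X D ha hD
  have hR' : Set.ncard {x : ℕ × ℕ | x.1 ∈ PK a ∧ x.2 ≤ X ∧ (2 ^ a < 24 * x.2 + 3 ∧ EvR a x.1 x.2)} ≤
      8 * D * sE (2 * 4 ^ a * X) := hR
  rw [← CNB_pairs (PK a) X (fun k n => EvL a k n)] at hL
  rw [← CNB_pairs (PK a) X (fun k n => 2 ^ a < 24 * n + 3 ∧ EvR a k n)] at hR'
  have key : ∀ k ∈ PK a, N ≤ (2 * (Nat.sqrt (8 * X + 1 + 4 ^ a) + 1) + 2 * 2 ^ a * (X / y + 1) +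
      (Nat.sqrt (2 * X) + 1) * (X / 4 ^ a + 1)) +
      Set.ncard {n : ℕ | n ≤ X ∧ EvL a k n} +
      Set.ncard {n : ℕ | n ≤ X ∧ (2 ^ a < 24 * n + 3 ∧ EvR a k n)} := by
    intro k hk
    obtain ⟨e, he, hne⟩ := CNB_e (kapk a k)
    have h0 := hN e he
    have hA := hXA1 a k X hk
    have hB := hXB1 a y k X (by omega) hk hy
    have hC := hXC1 a k X hk
    have hfin : ∀ P : ℕ → Prop, {n : ℕ | n ≤ X ∧ P n}.Finite := fun P =>
      (Set.finite_Iic X).subset (fun n hn => hn.1)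
    have hsub : {n : ℕ | n ≤ X ∧ SpY a y n ∧ #(rs (2 ^ a) n) % 2 = e} ⊆
        ((({n : ℕ | n ≤ X ∧ XA a k n} ∪ {n : ℕ | n ≤ X ∧ 2 ^ a < 24 * n + 3 ∧ XB a y k n}) ∪
          {n : ℕ | n ≤ X ∧ XC a k n}) ∪ {n : ℕ | n ≤ X ∧ EvL a k n}) ∪
          {n : ℕ | n ≤ X ∧ (2 ^ a < 24 * n + 3 ∧ EvR a k n)} := by
      rintro n ⟨hnX, hSp, hpar⟩
      have hgt : 2 ^ a < 24 * n + 3 := by
        obtain ⟨p₁, p₂, hp₁, hp₂, _, _, hn⟩ := hSp
        rw [hn]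
        have : 0 < r0 a * p₁ * p₂ := by
          have hr : 0 < r0 a := by unfold r0; split_ifs <;> norm_num
          exact Nat.mul_pos (Nat.mul_pos hr hp₁.pos) hp₂.pos
        omega
      by_cases h1 : XA a k n
      · left; left; left; left; exact ⟨hnX, h1⟩
      by_cases h2 : XB a y k n
      · left; left; left; right; exact ⟨hnX, hgt, h2⟩
      by_cases h3 : XC a k n
      · left; left; right; exact ⟨hnX, h3⟩
      have hne' : ((#(rs (2 ^ a) n) : ℕ) : ZMod 2) ≠ kapk a k := by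
        have h4 : ((#(rs (2 ^ a) n) : ℕ) : ZMod 2) = ((e : ℕ) : ZMod 2) := by
          rw [← ZMod.natCast_mod, hpar]
        rw [h4]
        exact hne
      rcases hEVB a y k n ha hk hgt hSp h1 h2 h3 hne' with h5 | h5
      · left; right; exact ⟨hnX, h5⟩
      · right; exact ⟨hnX, hgt, h5⟩
    have hfinU := ((((hfin (fun n => XA a k n)).union (hfin (fun n => 2 ^ a < 24 * n + 3 ∧ XB a y k n))).union
      (hfin (fun n => XC a k n))).union (hfin (fun n => EvL a k n))).union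
      (hfin (fun n => 2 ^ a < 24 * n + 3 ∧ EvR a k n))
    have h6 := Set.ncard_le_ncard hsub hfinU
    have u1 := Set.ncard_union_le (((({n : ℕ | n ≤ X ∧ XA a k n} ∪ {n : ℕ | n ≤ X ∧ 2 ^ a < 24 * n + 3 ∧ XB a y k n}) ∪
          {n : ℕ | n ≤ X ∧ XC a k n}) ∪ {n : ℕ | n ≤ X ∧ EvL a k n}))
          {n : ℕ | n ≤ X ∧ (2 ^ a < 24 * n + 3 ∧ EvR a k n)}
    have u2 := Set.ncard_union_le (({n : ℕ | n ≤ X ∧ XA a k n} ∪ {n : ℕ | n ≤ X ∧ 2 ^ a < 24 * n + 3 ∧ XB a y k n}) ∪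
          {n : ℕ | n ≤ X ∧ XC a k n}) {n : ℕ | n ≤ X ∧ EvL a k n}
    have u3 := Set.ncard_union_le ({n : ℕ | n ≤ X ∧ XA a k n} ∪ {n : ℕ | n ≤ X ∧ 2 ^ a < 24 * n + 3 ∧ XB a y k n})
          {n : ℕ | n ≤ X ∧ XC a k n}
    have u4 := Set.ncard_union_le {n : ℕ | n ≤ X ∧ XA a k n} {n : ℕ | n ≤ X ∧ 2 ^ a < 24 * n + 3 ∧ XB a y k n}
    omega
  have hsum := Finset.sum_le_sum key
  rw [Finset.sum_const, smul_eq_mul, Finset.sum_add_distrib, Finset.sum_add_distrib,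
    Finset.sum_const, smul_eq_mul] at hsum
  omega

end Pool.Agent.EP
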