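import Pool.Agent.helper7.EP.SpecB

/-!
# Project ep: (MP_ebc808_nt): EVB, an even value exists
-/

set_option autoImplicit false

open Finset PowerSeries

noncomputable section

namespace Pool.Agent.EP

theorem EVB_pp (s : ℕ) (h : ¬ Even (Fintype.card (Nat.Partition s))) : pp s = 1 := by
  unfold pp
  rw [Nat.not_even_iff_odd] at h
  exact (ZMod.natCast_eq_one_iff_odd).mpr h

theorem EVB_tri (r : ℕ) : 24 * tri r + 3 = 3 * (2 * r + 1) ^ 2 := by
  unfold tri
  have h : 2 ∣ r * (r + 1) := (Nat.even_mul_succ_self r).two_dvd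
  obtain ⟨c, hc⟩ := h
  rw [hc, Nat.mul_div_cancel_left _ (by norm_num)]
  have : (2 * r + 1) ^ 2 = 4 * (r * (r + 1)) + 1 := by ring
  rw [this, hc]
  ring

theorem EVB (hIDK : IDK_stmt) (hLHK : LHK_stmt) (hRHK : RHK_stmt) : EVB_stmt := by
  intro a y k n ha hk hn hSp hA hB hC hne
  by_contra hcon
  rw [not_or] at hcon
  obtain ⟨hcL, hcR⟩ := hcon
  have hk24 : k % 24 = 1 := by
    have := (Finset.mem_filter.mp hk).2.2
    simpa using this
  have hcop : Nat.Coprime k 6 := by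
    have h1 : k % 6 = 1 := by omega
    have h2 : Nat.gcd k 6 = 1 := by
      rw [Nat.gcd_comm, Nat.gcd_rec, h1]
      norm_num
    exact h2
  have hid := hIDK a k (by omega) hcop ((24 * n + 3 - 2 ^ a : ℕ) : ℤ)
  rw [hLHK a k n ha hk hn hA hC] at hid
  have hl : ∑ r ∈ rs (2 ^ a) n, pp ((k * (24 * ((n - tri r) / 2 ^ a) - 1) + 1) / 24) =
      ((#(rs (2 ^ a) n) : ℕ) : ZMod 2) := by
    have h1 : ∀ r ∈ rs (2 ^ a) n, pp ((k * (24 * ((n - tri r) / 2 ^ a) - 1) + 1) / 24) = 1 := by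
      intro r hr
      apply EVB_pp
      intro hev
      apply hcL
      have hr' := (Finset.mem_filter.mp hr).2
      have hm : 1 ≤ (n - tri r) / 2 ^ a := by
        by_contra h0
        have h0' : (n - tri r) / 2 ^ a = 0 := Nat.lt_one_iff.mp (not_le.mp h0)
        have h3 := Nat.div_mul_cancel hr'.2
        rw [h0', zero_mul] at h3
        have h4 : n = tri r := by omega
        apply hA
        left
        refine ⟨2 * r + 1, ?_⟩
        rw [h4]
        exact (EVB_tri r).symm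
      refine ⟨r, hr, hm, ?_, hev⟩
      obtain ⟨m, hmm⟩ : ∃ m, (n - tri r) / 2 ^ a = m + 1 := ⟨(n - tri r) / 2 ^ a - 1, by omega⟩
      rw [hmm]
      obtain ⟨q, hq⟩ : ∃ q, k = 24 * q + 1 := ⟨k / 24, by omega⟩
      rw [hq]
      have h5 : 24 * (m + 1) - 1 = 24 * m + 23 := by omega
      rw [h5]
      refine ⟨q * (24 * m + 23) + m + 1, ?_⟩
      ring
    rw [Finset.sum_congr rfl h1]
    simp
  have hr : ∑ w ∈ ws (k * 2 ^ a), JG ac (k * 2 ^ a - 3 * w ^ 2) ((24 * n + 3 - 2 ^ a : ℕ) : ℤ) =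
      kapk a k := by
    unfold kapk
    refine Finset.sum_congr rfl fun w hw => ?_
    obtain ⟨h1, h2⟩ := hRHK a y k n w ha hk hn hSp hB hw
    rw [h1]
    have h3 : ∀ d ∈ (Nat.gcd (k * 2 ^ a - 3 * w ^ 2) (r0 a)).divisors,
        pp (((k * 2 ^ a - 3 * w ^ 2) * (24 * n + 3 - 2 ^ a) / d ^ 2 + 1) / 24) = 1 := by
      intro d hd
      apply EVB_pp
      intro hev
      apply hcR
      exact ⟨w, hw, d, hd, (h2 d hd).1, (h2 d hd).2, hev⟩
    rw [Finset.sum_congr rfl h3]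
    simp
  apply hne
  rw [← hl, hid, hr]

end Pool.Agent.EP
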