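import Pool.Agent.helper99.EP.Spec

set_option autoImplicit false

namespace Pool.Agent.EP

open Finset Pool.Agent.helper85.FC Pool.Agent.OM Pool.Agent.helper11.TX Pool.Agent.AT

theorem GQS_div (c s t : ℕ) (hc : 1 ≤ c) : s * c / Nat.gcd (s * c) (t * c) = s / Nat.gcd s t := by
  rw [Nat.gcd_mul_right]
  exact Nat.mul_div_mul_right _ _ hc

theorem GQS_div' (c s t : ℕ) (hc : 1 ≤ c) : t * c / Nat.gcd (s * c) (t * c) = t / Nat.gcd s t := by
  rw [Nat.gcd_mul_right]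
  exact Nat.mul_div_mul_right _ _ hc

theorem GQS (hGSY : GSY_stmt) : GQS_stmt := by
  refine ⟨?_, ?_, ?_⟩
  · intro ε s t h
    unfold GQ at h ⊢
    rw [Nat.gcd_comm t s]
    exact hGSY ε _ _ h
  · intro ε c s t hc
    unfold GQ
    rw [GQS_div c s t hc, GQS_div' c s t hc]
  · intro ε ε' s t hε h
    obtain ⟨q, r, hq, h⟩ := h
    refine ⟨q, r, hq, fun T hT => ?_⟩
    obtain ⟨u, hu⟩ := h T hT
    refine ⟨u, le_trans ?_ hu⟩
    have : (0 : ℝ) ≤ T := by positivity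
    nlinarith

end Pool.Agent.EP
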