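import Pool.Agent.helper7.EP.SpecL

set_option autoImplicit false

open Finset
open scoped Real

namespace Pool.Agent.EP

private lemma WIN_pow (a : ℕ) (ha : 3 ≤ a) : (r0 a + 2 ^ a) % 24 = 3 := by
  have h : ∀ k : ℕ, (2 ^ (2 * k + 3)) % 24 = 8 ∧ (2 ^ (2 * k + 4)) % 24 = 16 := by
    intro k
    induction k with
    | zero => exact ⟨by norm_num, by norm_num⟩
    | succ k ih =>
      obtain ⟨h1, h2⟩ := ih
      have e1 : 2 ^ (2 * (k + 1) + 3) = 4 * 2 ^ (2 * k + 3) := by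
        rw [show 2 * (k + 1) + 3 = (2 * k + 3) + 2 by ring, pow_add]; ring
      have e2 : 2 ^ (2 * (k + 1) + 4) = 4 * 2 ^ (2 * k + 4) := by
        rw [show 2 * (k + 1) + 4 = (2 * k + 4) + 2 by ring, pow_add]; ring
      rw [e1, e2]
      omega
  unfold r0
  rcases Nat.even_or_odd a with h1 | h1
  · obtain ⟨k, hk⟩ := h1
    have ha2 : a % 2 = 0 := by omega
    have : a = 2 * (k - 2) + 4 := by omega
    have h3 := (h (k - 2)).2
    rw [← this] at h3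
    rw [if_neg (by omega)]
    omega
  · obtain ⟨k, hk⟩ := h1
    have ha2 : a % 2 = 1 := by omega
    have : a = 2 * (k - 1) + 3 := by omega
    have h3 := (h (k - 1)).1
    rw [← this] at h3
    rw [if_pos (by omega)]
    omega

private lemma WIN_nu (a c p₁ p₂ : ℕ) (ha : 3 ≤ a) (hc : c < 24) (hc6 : Nat.Coprime c 6)
    (h1 : p₁ % 24 = c) (h2 : p₂ % 24 = c) :
    24 * nu a p₁ p₂ + 3 = r0 a * p₁ * p₂ + 2 ^ a := by
  have h3 : (p₁ * p₂) % 24 = 1 := by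
    rw [Nat.mul_mod, h1, h2]
    interval_cases c <;> first | rfl | (exfalso; revert hc6; decide)
  have h4 := WIN_pow a ha
  have h5 : (r0 a * p₁ * p₂ + 2 ^ a) % 24 = 3 := by
    rw [mul_assoc, Nat.add_mod, Nat.mul_mod, h3, mul_one, Nat.mod_mod, ← Nat.add_mod]
    exact h4
  have h6 : 2 ^ 3 ≤ 2 ^ a := Nat.pow_le_pow_right (by norm_num) ha
  unfold nu
  omega

private lemma WIN_mod (R₀ R L h : ℕ) (hL : 0 < L) (h4 : 2 * L ≤ h) (h1 : R₀ ≤ R)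
    (h2 : R ≤ R₀ + L) :
    (L ≤ R₀ % (2 * h) → R₀ % (2 * h) + 2 * L ≤ 2 * h →
      L ≤ R % (2 * h) ∧ R % (2 * h) + L ≤ 2 * h) ∧
    (R₀ % (2 * h) + 2 * L ≤ h ∨ h + L ≤ R₀ % (2 * h) →
      R % (2 * h) + L ≤ h ∨ h + L ≤ R % (2 * h)) := by
  obtain ⟨d, rfl⟩ : ∃ d, R = R₀ + d := ⟨R - R₀, by omega⟩
  have hd : d ≤ L := by omega
  have hq : 0 < 2 * h := by omega
  have hρ : R₀ % (2 * h) < 2 * h := Nat.mod_lt _ hq
  have key : (R₀ % (2 * h) + d < 2 * h → (R₀ + d) % (2 * h) = R₀ % (2 * h) + d) ∧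
      (2 * h ≤ R₀ % (2 * h) + d → (R₀ + d) % (2 * h) = R₀ % (2 * h) + d - 2 * h) := by
    have e1 : (R₀ + d) % (2 * h) = (R₀ % (2 * h) + d) % (2 * h) := by
      rw [Nat.mod_add_mod]
    constructor
    · intro h5
      rw [e1, Nat.mod_eq_of_lt h5]
    · intro h5
      rw [e1, Nat.mod_eq_sub_mod h5, Nat.mod_eq_of_lt (by omega)]
  constructor
  · intro h5 h6
    rw [key.1 (by omega)]
    omega
  · rintro (h5 | h5)
    · left
      rw [key.1 (by omega)]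
      omega
    · rcases Nat.lt_or_ge (R₀ % (2 * h) + d) (2 * h) with h6 | h6
      · right
        rw [key.1 h6]
        omega
      · left
        rw [key.2 h6]
        omega

private lemma WIN_inj (a j c y₁ : ℕ) (s : ℕ → ℤ)
    (hs : ∀ p : ℕ, p % 24 = c % 24 → s p % 2 = 1 ∧ (2 : ℤ) ^ (a + 3) ∣ c * (s p) ^ 2 - p)
    (hc : c < 24) :
    Set.InjOn (fun p : ℕ => ((s p : ℤ) : ZMod (2 ^ (a + 2)))) (Wd c y₁ (2 ^ (a - j))) := by
  intro p hp p' hp' h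
  rw [Finset.mem_coe, Wd, Finset.mem_filter, Finset.mem_Ico] at hp hp'
  have hcc : c % 24 = c := Nat.mod_eq_of_lt hc
  obtain ⟨o1, d1⟩ := hs p (by rw [hcc]; exact hp.2.2)
  obtain ⟨o2, d2⟩ := hs p' (by rw [hcc]; exact hp'.2.2)
  simp only at h
  rw [ZMod.intCast_eq_intCast_iff_dvd_sub] at h
  push_cast at h
  have h2 : (2 : ℤ) ∣ s p' + s p := by omega
  have h3 : (2 : ℤ) ^ (a + 3) ∣ (s p') ^ 2 - (s p) ^ 2 := by
    have e1 : (s p') ^ 2 - (s p) ^ 2 = (s p' - s p) * (s p' + s p) := by ring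
    have e2 : (2 : ℤ) ^ (a + 3) = 2 ^ (a + 2) * 2 := by ring
    rw [e1, e2]
    exact mul_dvd_mul h h2
  have h4 : (2 : ℤ) ^ (a + 3) ∣ (p' : ℤ) - p := by
    have e3 : (p' : ℤ) - p = (c * (s p) ^ 2 - p) - (c * (s p') ^ 2 - p') +
        c * ((s p') ^ 2 - (s p) ^ 2) := by ring
    rw [e3]
    exact dvd_add (dvd_sub d1 d2) (Dvd.dvd.mul_left h3 _)
  have h5 : (2 : ℕ) ^ (a - j) ≤ 2 ^ (a + 3) := Nat.pow_le_pow_right (by norm_num) (by omega)
  have h6 : |(p' : ℤ) - p| < 2 ^ (a + 3) := by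
    have h7 : ((2 : ℕ) ^ (a - j) : ℤ) ≤ 2 ^ (a + 3) := by exact_mod_cast h5
    push_cast at h7
    have h8 : (p : ℤ) < y₁ + 2 ^ (a - j) := by exact_mod_cast hp.1.2
    have h9 : (p' : ℤ) < y₁ + 2 ^ (a - j) := by exact_mod_cast hp'.1.2
    have h10 : (y₁ : ℤ) ≤ p := by exact_mod_cast hp.1.1
    have h11 : (y₁ : ℤ) ≤ p' := by exact_mod_cast hp'.1.1
    rw [abs_lt]
    constructor <;> linarith
  have h7 := Int.eq_zero_of_abs_lt_dvd h4 h6
  omega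

theorem WIN (hFP : FP_stmt) (hRT : RT_stmt) (hBIL : BIL_stmt) (hGEO1 : GEO1_stmt) : WIN_stmt := by
  intro a j c e y y₁ y₂ ha hj hja hay h1 h2 h3 h4 hc hc6 he hgood hbig
  have hcodd : c % 2 = 1 := by
    interval_cases c <;> first | rfl | (exfalso; revert hc6; decide)
  have hcc : c % 24 = c := Nat.mod_eq_of_lt hc
  obtain ⟨g, s, hg, hs, hroot⟩ := hRT a c ha hcodd
  obtain ⟨L, hL⟩ : ∃ L : ℕ, L = 2 ^ (a + 2 - j) := ⟨_, rfl⟩
  have hLpos : 0 < L := by rw [hL]; positivity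
  have h4L : 4 * L ≤ 2 ^ (a + 2) := by
    rw [hL]
    have : 4 * 2 ^ (a + 2 - j) = 2 ^ (2 + (a + 2 - j)) := by
      rw [pow_add]; norm_num
    rw [this]
    exact Nat.pow_le_pow_right (by norm_num) (by omega)
  have hq2 : (2 : ℕ) ^ (a + 2) = 2 * 2 ^ (a + 1) := by ring
  obtain ⟨σ, hσ⟩ : ∃ σ : ℕ → ZMod (2 ^ (a + 2)), σ = fun p => ((s p : ℤ) : ZMod (2 ^ (a + 2))) :=
    ⟨_, rfl⟩
  have hi1 : Set.InjOn σ (Wd c y₁ (2 ^ (a - j))) := by
    rw [hσ]; exact WIN_inj a j c y₁ s hs hc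
  have hi2 : Set.InjOn σ (Wd c y₂ (2 ^ (a - j))) := by
    rw [hσ]; exact WIN_inj a j c y₂ s hs hc
  have hgu : IsUnit ((g : ℤ) : ZMod (2 ^ (a + 2))) := by
    rw [ZMod.coe_int_isUnit_iff_isCoprime]
    push_cast
    apply IsCoprime.pow_left
    rw [Int.isCoprime_iff_gcd_eq_one]
    have : Int.gcd 2 g = 1 := by
      have h5 : ¬ (2 : ℤ) ∣ g := by omega
      exact (Int.prime_two.coprime_iff_not_dvd.mpr h5 |> Int.isCoprime_iff_gcd_eq_one.mp)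
    exact this
  -- the shift
  obtain ⟨x, hx⟩ : ∃ x : ℤ, x = if e = 1 then 0 else 2 ^ (a + 1) := ⟨_, rfl⟩
  have hmain := hBIL (a + 2) (a + 2 - j) (by omega) ((Wd c y₁ (2 ^ (a - j))).image σ)
    ((Wd c y₂ (2 ^ (a - j))).image σ) (g : ZMod (2 ^ (a + 2))) ((x : ℤ) : ZMod (2 ^ (a + 2))) hgu
    (by rw [Finset.card_image_of_injOn hi1, Finset.card_image_of_injOn hi2]; exact hbig)
  rw [Finset.card_image_of_injOn hi1, Finset.card_image_of_injOn hi2] at hmain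
  refine hmain.trans ?_
  gcongr
  -- compare the cardinalities
  have hsub : {t : ZMod (2 ^ (a + 2)) × ZMod (2 ^ (a + 2)) |
      t.1 ∈ (Wd c y₁ (2 ^ (a - j))).image σ ∧ t.2 ∈ (Wd c y₂ (2 ^ (a - j))).image σ ∧
        ∃ u u' : ℕ, u < 2 ^ (a + 2 - j) ∧ u' < 2 ^ (a + 2 - j) ∧
          (g : ZMod (2 ^ (a + 2))) * t.1 * t.2 =
            ((x : ℤ) : ZMod (2 ^ (a + 2))) + (u : ZMod (2 ^ (a + 2))) - u'} ⊆
      ↑(({p ∈ Wd c y₁ (2 ^ (a - j)) ×ˢ Wd c y₂ (2 ^ (a - j)) |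
        #(rs (2 ^ a) (nu a p.1 p.2)) % 2 = e}).image (fun p => (σ p.1, σ p.2))) := by
    rintro ⟨t1, t2⟩ ⟨ht1, ht2, u, u', hu, hu', heq⟩
    simp only at ht1 ht2 heq
    obtain ⟨p₁, hp1, rfl⟩ := Finset.mem_image.mp ht1
    obtain ⟨p₂, hp2, rfl⟩ := Finset.mem_image.mp ht2
    rw [Finset.coe_image]
    refine ⟨(p₁, p₂), ?_, rfl⟩
    rw [Finset.mem_coe, Finset.mem_filter, Finset.mem_product]
    refine ⟨⟨hp1, hp2⟩, ?_⟩
    show #(rs (2 ^ a) (nu a p₁ p₂)) % 2 = e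
    rw [Wd, Finset.mem_filter, Finset.mem_Ico] at hp1 hp2
    have hn := WIN_nu a c p₁ p₂ (by omega) hc hc6 hp1.2.2 hp2.2.2
    have hv := hroot p₁ p₂ (nu a p₁ p₂) (by rw [hcc]; exact hp1.2.2)
      (by rw [hcc]; exact hp2.2.2) hn
    obtain ⟨o1, _⟩ := hs p₁ (by rw [hcc]; exact hp1.2.2)
    obtain ⟨o2, _⟩ := hs p₂ (by rw [hcc]; exact hp2.2.2)
    have hvodd : (g * s p₁ * s p₂) % 2 = 1 := by
      rw [Int.mul_emod, Int.mul_emod g, hg, o1, o2]; rfl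
    -- the congruence
    have hk : ∃ k : ℤ, g * s p₁ * s p₂ = k * 2 ^ (a + 2) + x + (u - u') := by
      have h5 : ((g * s p₁ * s p₂ : ℤ) : ZMod (2 ^ (a + 2))) = ((x + u - u' : ℤ) : ZMod _) := by
        rw [hσ] at heq
        push_cast
        exact heq
      rw [ZMod.intCast_eq_intCast_iff_dvd_sub] at h5
      obtain ⟨k, hk⟩ := h5
      refine ⟨-k, ?_⟩
      push_cast at hk
      linarith
    obtain ⟨k, hk⟩ := hk
    have huu : |(u : ℤ) - u'| < (L : ℤ) := by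
      rw [abs_lt]
      rw [hL]
      have h6 : (u : ℤ) < ((2 ^ (a + 2 - j) : ℕ) : ℤ) := by exact_mod_cast hu
      have h7 : (u' : ℤ) < ((2 ^ (a + 2 - j) : ℕ) : ℤ) := by exact_mod_cast hu'
      have h8 : (0 : ℤ) ≤ u := by positivity
      have h9 : (0 : ℤ) ≤ u' := by positivity
      constructor <;> linarith
    -- the root
    have hR : Nat.sqrt (8 * nu a p₁ p₂ + 1) = Rb a p₁ p₂ := by
      unfold Rb
      congr 1
      omega
    obtain ⟨g1, g2⟩ := hGEO1 a j y y₁ y₂ p₁ p₂ hj hja hay h1 h2 h3 h4 hp1.1.1 hp1.1.2 hp2.1.1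
      hp2.1.2
    rw [← hL] at g2
    obtain ⟨f1, f2⟩ := hFP a (nu a p₁ p₂) L (g * s p₁ * s p₂) hLpos h4L hvodd hv
    rw [hR] at f1 f2
    obtain ⟨m1, m2⟩ := WIN_mod (Rb a y₁ y₂) (Rb a p₁ p₂) L (2 ^ (a + 1)) hLpos (by omega) g1 g2
    rw [← hq2] at m1 m2
    unfold Good at hgood
    rcases (show e = 0 ∨ e = 1 by omega) with rfl | rfl
    · rw [if_neg (by norm_num), ← hL] at hgood
      rw [if_neg (by norm_num)] at hx
      apply f2
      · refine ⟨k, ?_⟩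
        have e1 : g * s p₁ * s p₂ - (k * 2 ^ (a + 2) + 2 ^ (a + 1)) = (u : ℤ) - u' := by
          rw [hk, hx]; ring
        rw [e1]
        exact huu
      · exact m2 hgood
    · rw [if_pos rfl, ← hL] at hgood
      rw [if_pos rfl] at hx
      obtain ⟨m3, m4⟩ := m1 hgood.1 hgood.2
      apply f1 _ m3 m4
      refine ⟨k, ?_⟩
      have e1 : g * s p₁ * s p₂ - k * 2 ^ (a + 2) = (u : ℤ) - u' := by
        rw [hk, hx]; ring
      rw [e1]
      exact huu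
  calc _ ≤ (↑(({p ∈ Wd c y₁ (2 ^ (a - j)) ×ˢ Wd c y₂ (2 ^ (a - j)) |
        #(rs (2 ^ a) (nu a p.1 p.2)) % 2 = e}).image (fun p => (σ p.1, σ p.2))) :
        Set (ZMod (2 ^ (a + 2)) × ZMod (2 ^ (a + 2)))).ncard :=
        Set.ncard_le_ncard hsub (Finset.finite_toSet _)
    _ ≤ _ := by
        rw [Set.ncard_coe_finset]
        exact Finset.card_image_le

end Pool.Agent.EP
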